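import Pool.Agent.Run7.h472.OH.Iface

/-!
# Planar first-passage percolation (project of helper472), piece EMB (helper711)
-/

set_option autoImplicit false
open MeasureTheory ProbabilityTheory Filter Set
open scoped ENNReal Pointwise Topology

namespace Run7.h711.OH

open Pool.Agent.N662.FP Pool.Agent.Run7.h472.OH

/-- the dyadic interval which contains `w` -/
theorem dyad (y w : ℝ) (I : ℕ) (h1 : y < w) (h2 : w ≤ 2 ^ I * y) :
    ∃ i ∈ Finset.range I, 2 ^ i * y < w ∧ w ≤ 2 ^ (i + 1) * y := by
  induction I with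
  | zero => rw [pow_zero, one_mul] at h2; exact absurd h1 (not_lt.2 h2)
  | succ I ih =>
    by_cases h : w ≤ 2 ^ I * y
    · obtain ⟨i, hi, h3⟩ := ih h
      exact ⟨i, Finset.mem_range.2 ((Finset.mem_range.1 hi).trans (Nat.lt_succ_self I)), h3⟩
    · exact ⟨I, Finset.mem_range.2 (Nat.lt_succ_self I), not_le.1 h, h2⟩

theorem t_EMB : S_WBD → S_MEAS → S_EMB := by
  intro hW hM Ω _ _ X hX μ c C L hC n hn g lam y I hlam hy hgy hI
  set w : Ω → ℝ := fun ω => W μ L n 0 (env X ω) with hw
  have hwm : Measurable w := by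
    have h1 : Measurable fun ω => env X ω := by
      unfold env
      exact measurable_pi_lambda _ fun e => hX.meas e
    exact (hM μ c C L hC n hn 0).comp h1
  have hle : ∀ ω, w ω ≤ 2 ^ I * y := fun ω => ((hW μ c C L hC n hn 0 (env X ω)).2.2.1).trans hI
  have hms : ∀ u : ℝ, MeasurableSet {ω | u < w ω} := fun u => measurableSet_lt measurable_const hwm
  have hG : ∀ u : ℝ, ENNReal.ofReal (G X μ L n u) = (volume : Measure Ω) {ω | u < w ω} := by
    intro u
    unfold G
    rw [ofReal_measureReal]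
  have hexp : ∀ a b : ℝ, 0 ≤ lam → a ≤ b →
      ENNReal.ofReal (Real.exp (lam * a)) ≤ ENNReal.ofReal (Real.exp (lam * b)) := by
    intro a b _ hab
    exact ENNReal.ofReal_le_ofReal (Real.exp_le_exp.2 (mul_le_mul_of_nonneg_left hab hlam))
  -- pointwise bound
  have hpt : ∀ ω ∈ {ω | g < w ω}, ENNReal.ofReal (Real.exp (lam * w ω)) ≤
      ENNReal.ofReal (Real.exp (lam * y)) + ∑ i ∈ Finset.range I,
        {ω | 2 ^ i * y < w ω}.indicator
          (fun _ => ENNReal.ofReal (Real.exp (lam * (2 ^ (i + 1) * y)))) ω := by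
    intro ω _
    by_cases h : w ω ≤ y
    · exact (hexp _ _ hlam h).trans le_self_add
    · obtain ⟨i, hi, h3, h4⟩ := dyad y (w ω) I (not_le.1 h) (hle ω)
      refine le_trans ?_ le_add_self
      refine le_trans ?_ (Finset.single_le_sum (f := fun i => {ω | 2 ^ i * y < w ω}.indicator
          (fun _ => ENNReal.ofReal (Real.exp (lam * (2 ^ (i + 1) * y)))) ω)
          (fun _ _ => zero_le) hi)
      rw [indicator_of_mem (by exact h3)]
      exact hexp _ _ hlam h4
  unfold EM Sm
  calc ∫⁻ ω in {ω | g < w ω}, ENNReal.ofReal (Real.exp (lam * w ω)) ∂(volume : Measure Ω)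
      ≤ ∫⁻ ω in {ω | g < w ω}, (ENNReal.ofReal (Real.exp (lam * y)) + ∑ i ∈ Finset.range I,
        {ω | 2 ^ i * y < w ω}.indicator
          (fun _ => ENNReal.ofReal (Real.exp (lam * (2 ^ (i + 1) * y)))) ω) ∂(volume : Measure Ω) :=
        setLIntegral_mono' (hms g) hpt
    _ = ENNReal.ofReal (Real.exp (lam * y)) * (volume : Measure Ω) {ω | g < w ω} +
        ∑ i ∈ Finset.range I, ∫⁻ ω in {ω | g < w ω}, {ω | 2 ^ i * y < w ω}.indicator
          (fun _ => ENNReal.ofReal (Real.exp (lam * (2 ^ (i + 1) * y)))) ω ∂(volume : Measure Ω) := by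
        rw [lintegral_add_left measurable_const, setLIntegral_const, lintegral_finsetSum]
        intro i _
        exact measurable_const.indicator (hms _)
    _ ≤ ENNReal.ofReal (Real.exp (lam * y)) * (volume : Measure Ω) {ω | g < w ω} +
        ∑ i ∈ Finset.range I, ENNReal.ofReal (Real.exp (lam * (2 ^ (i + 1) * y))) *
          (volume : Measure Ω) {ω | 2 ^ i * y < w ω} := by
        refine add_le_add le_rfl (Finset.sum_le_sum fun i _ => ?_)
        calc ∫⁻ ω in {ω | g < w ω}, {ω | 2 ^ i * y < w ω}.indicator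
              (fun _ => ENNReal.ofReal (Real.exp (lam * (2 ^ (i + 1) * y)))) ω ∂(volume : Measure Ω)
            ≤ ∫⁻ ω, {ω | 2 ^ i * y < w ω}.indicator
              (fun _ => ENNReal.ofReal (Real.exp (lam * (2 ^ (i + 1) * y)))) ω ∂(volume : Measure Ω) :=
              setLIntegral_le_lintegral _ _
          _ = _ := by rw [lintegral_indicator_const (hms _)]
    _ = ENNReal.ofReal (Real.exp (lam * y) * G X μ L n g +
        ∑ i ∈ Finset.range I, Real.exp (lam * (2 ^ (i + 1) * y)) * G X μ L n (2 ^ i * y)) := by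
        have h0 : ∀ u, 0 ≤ G X μ L n u := fun u => measureReal_nonneg
        rw [ENNReal.ofReal_add (mul_nonneg (Real.exp_pos _).le (h0 _))
          (Finset.sum_nonneg fun i _ => mul_nonneg (Real.exp_pos _).le (h0 _)),
          ENNReal.ofReal_mul (Real.exp_pos _).le, hG, ENNReal.ofReal_sum_of_nonneg
          (fun i _ => mul_nonneg (Real.exp_pos _).le (h0 _))]
        congr 1
        refine Finset.sum_congr rfl fun i _ => ?_
        rw [ENNReal.ofReal_mul (Real.exp_pos _).le, hG]

end Run7.h711.OH
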