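import Pool.Agent.Run7.h472.OH.Iface

/-!
# Planar first-passage percolation (project of helper472), piece STEP (helper711)
-/

set_option autoImplicit false
open MeasureTheory ProbabilityTheory Filter Set
open scoped ENNReal Pointwise Topology

namespace Run7.h711.OH

open Pool.Agent.N662.FP Pool.Agent.Run7.h472.OH

/-- the path of a finite sequence -/
def pth (q : Sq) (i : ℕ) : ℤ × ℤ := if h : i < q.1 + 1 then q.2 ⟨i, h⟩ else q.2 (Fin.last _)

theorem pth_of {q : Sq} {i : ℕ} (h : i < q.1 + 1) : pth q i = q.2 ⟨i, h⟩ := dif_pos h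

theorem pth_zero (q : Sq) : pth q 0 = q.2 0 := pth_of (Nat.succ_pos _)

theorem pth_last (q : Sq) : pth q q.1 = q.2 (Fin.last _) := pth_of (Nat.lt_succ_self _)

theorem pth_isP {L n : ℕ} {b : ℤ × ℤ} {q : Sq} (hq : Val L n b q) : IsP (pth q) q.1 := by
  intro i hi
  rw [pth_of (by omega : i < q.1 + 1), pth_of (by omega : i + 1 < q.1 + 1)]
  exact hq.step ⟨i, hi⟩

theorem pth_tm (x : Env) (q : Sq) : tm x (pth q) 0 q.1 = tmS x q := by
  unfold tm tmS
  rw [← Finset.range_eq_Ico, Finset.sum_range]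
  refine Finset.sum_congr rfl fun i _ => ?_
  have h1 : pth q i = q.2 i.castSucc := pth_of (by omega : (i : ℕ) < q.1 + 1)
  have h2 : pth q (i + 1) = q.2 i.succ := pth_of (by omega : (i : ℕ) + 1 < q.1 + 1)
  rw [h1, h2]

theorem blk_zero (n : ℕ) : blk n 0 = 0 := by
  unfold blk
  simp

/-- the coordinates of the points of a block -/
theorem blk_eq {m : ℕ} (hm : 1 ≤ m) {z : ℤ × ℤ} (h : blk m z = 0) :
    0 ≤ z.1 ∧ z.1 < m ∧ 0 ≤ z.2 ∧ z.2 < m := by
  unfold blk at h
  have hm' : (0 : ℤ) < m := by exact_mod_cast hm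
  have h1 : z.1 / (m : ℤ) = 0 := congrArg Prod.fst h
  have h2 : z.2 / (m : ℤ) = 0 := congrArg Prod.snd h
  have e1 := Int.emod_add_mul_ediv z.1 m
  have e2 := Int.emod_add_mul_ediv z.2 m
  rw [h1, mul_zero, add_zero] at e1
  rw [h2, mul_zero, add_zero] at e2
  refine ⟨?_, ?_, ?_, ?_⟩
  · rw [← e1]; exact Int.emod_nonneg _ hm'.ne'
  · rw [← e1]; exact Int.emod_lt_of_pos _ hm'
  · rw [← e2]; exact Int.emod_nonneg _ hm'.ne'
  · rw [← e2]; exact Int.emod_lt_of_pos _ hm'

/-- the blocks of size `n` which meet the block `0` of size `m` -/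
noncomputable def Sts (n m : ℕ) : Finset (ℤ × ℤ) :=
  Finset.Icc (0 : ℤ) ((m / n : ℕ) : ℤ) ×ˢ Finset.Icc (0 : ℤ) ((m / n : ℕ) : ℤ)

theorem card_Sts (n m : ℕ) : (Sts n m).card = (m / n + 1) ^ 2 := by
  unfold Sts
  rw [Finset.card_product, Int.card_Icc, sub_zero, ← Nat.cast_succ, Int.toNat_natCast, pow_two]

theorem mem_Sts {n m : ℕ} (hm : 1 ≤ m) {z : ℤ × ℤ} (h : blk m z = 0) :
    blk n z ∈ Sts n m := by
  obtain ⟨h1, h2, h3, h4⟩ := blk_eq hm h
  unfold Sts blk
  rw [Finset.mem_product, Finset.mem_Icc, Finset.mem_Icc]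
  have key : ∀ a : ℤ, 0 ≤ a → a < m → 0 ≤ a / (n : ℤ) ∧ a / (n : ℤ) ≤ (m / n : ℕ) := by
    intro a ha1 ha2
    refine ⟨Int.ediv_nonneg ha1 (by positivity), ?_⟩
    rw [Int.natCast_div]
    rcases Nat.eq_zero_or_pos n with h | h
    · subst h; simp
    · exact Int.ediv_le_ediv (by exact_mod_cast h) ha2.le
  exact ⟨key _ h1 h2, key _ h3 h4⟩

/-- A large local deficit gives an element of `Low`. -/
theorem low_of_W {μ : Seminorm ℝ (ℝ × ℝ)} {c C : ℝ} {L : ℕ} (hC : Cst μ c C L) {m n : ℕ}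
    (hm : 1 ≤ m) {x : Env} {u : ℝ} (hu : 0 ≤ u) (h : u < W μ L m 0 x) :
    Low μ n (Sts n m) (C * (L + 1) * m) u x := by
  unfold W at h
  rcases isEmpty_or_nonempty {q : Sq // Val L m 0 q} with he | he
  · rw [Real.iSup_of_isEmpty] at h
    exact absurd h (not_lt.2 hu)
  · obtain ⟨⟨q, hq⟩, h1⟩ := exists_lt_of_lt_ciSup h
    refine ⟨q.1, pth q, pth_isP hq, ?_, ?_, ?_⟩
    · rw [pth_zero]
      exact mem_Sts hm hq.start
    · rw [pth_zero, pth_last]
      refine (hC.hi _).trans ?_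
      have h2 : (nm (q.2 (Fin.last _) - q.2 0) : ℝ) ≤ (L + 1) * m := by
        have h3 := hq.inR (Fin.last _)
        have h4 := blk_eq hm hq.start
        have h5 : nm (q.2 (Fin.last _) - q.2 0) ≤ (L + 1) * m := by
          unfold nm InR at *
          simp only [Prod.fst_sub, Prod.snd_sub, Prod.fst_zero, Prod.snd_zero, mul_zero, sub_zero,
            abs_le] at *
          have e : ((L : ℤ) + 1) * m = L * m + m := by ring
          refine max_le ?_ ?_ <;> zify <;> rw [abs_le, e] <;> constructor <;> nlinarith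
        exact_mod_cast h5
      rw [mul_assoc]
      exact mul_le_mul_of_nonneg_left h2 hC.C_pos.le
    · rw [pth_tm, pth_zero, pth_last]
      have h2 : u < μ (em (q.2 (Fin.last _) - q.2 0)) - tmS x q := h1
      linarith

/-- A small passage time gives an element of `Low`. -/
theorem low_of_D {μ : Seminorm ℝ (ℝ × ℝ)} (hGE : S_GE) {n : ℕ} {x : Env} (hx : ∀ e, 0 ≤ x e)
    {v : ℤ × ℤ} {δ : ℝ} (hδ : 0 < δ) (hv : 0 < μ (em v))
    (h : D x 0 v ≤ (1 - δ) * μ (em v)) :
    Low μ n {0} (μ (em v)) (δ * μ (em v) / 2) x := by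
  obtain ⟨h1, h2, -, -⟩ := hGE x hx 0 v
  have h3 : sInf (PS x 0 v) < μ (em v) - δ * μ (em v) / 2 := by
    have h4 : D x 0 v = sInf (PS x 0 v) := rfl
    rw [← h4]
    nlinarith [mul_pos hδ hv]
  obtain ⟨s, ⟨m, p, hp0, hpm, hp, hs⟩, hlt⟩ := exists_lt_of_csInf_lt h1 h3
  refine ⟨m, p, hp, ?_, ?_, ?_⟩
  · rw [hp0, blk_zero]
    exact Finset.mem_singleton_self _
  · rw [hp0, hpm, sub_zero]
  · rw [hp0, hpm, sub_zero]
    have e : tm x p 0 m = s := by
      unfold tm
      rw [hs, Finset.range_eq_Ico]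
      exact Finset.sum_congr rfl fun i _ => max_eq_left (hx _)
    rw [e]
    exact hlt.le

/-- The exponential factors. -/
theorem expo {M B4 B r : ℝ} (hM : 1 ≤ M) (hr : 0 ≤ r)
    (hB : 8 * M * (B4 * Real.log 36 + 1) ≤ B) {a b : ℝ} (ha : a ≤ B4 * r) (hb : B * r / (8 * M) ≤ b) :
    (36 : ℝ) ^ a * Real.exp (-b) ≤ Real.exp (-r) := by
  have h0 : (0 : ℝ) < Real.log 36 := Real.log_pos (by norm_num)
  rw [Real.rpow_def_of_pos (by norm_num : (0 : ℝ) < 36), ← Real.exp_add]
  apply Real.exp_le_exp.2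
  have h1 : Real.log 36 * a ≤ Real.log 36 * (B4 * r) := mul_le_mul_of_nonneg_left ha h0.le
  have h2 : (B4 * Real.log 36 + 1) * r ≤ B * r / (8 * M) := by
    rw [le_div_iff₀ (by positivity)]
    nlinarith [mul_le_mul_of_nonneg_right hB hr]
  nlinarith

theorem t_STEP : S_WBD → S_CG → S_GE → S_AE → S_STEP := by
  intro hW hCG hGE hAE Ω _ _ X hX μ c C L hC
  have hc := hC.c_pos
  have hCp := hC.C_pos
  set M : ℝ := (2 * (L : ℝ) + 1) ^ 2 with hM
  have hM1 : 1 ≤ M := by
    have h1 : (0 : ℝ) ≤ L := Nat.cast_nonneg _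
    rw [hM]
    nlinarith
  have hM0 : 0 < M := by linarith
  set B4 : ℝ := 1 + 2 / c + 2 * (C * (L + 1)) / c with hB4
  have hp1 : 0 < 2 / c := by positivity
  have hp2 : 0 < 2 * (C * (L + 1)) / c := by positivity
  have hB41 : 1 ≤ B4 := by rw [hB4]; linarith
  have hℓ0 : (0 : ℝ) < Real.log 36 := Real.log_pos (by norm_num)
  have hp3 : 0 < B4 * Real.log 36 := by positivity
  have hp4 : 0 < (36 : ℝ) ^ M := by positivity
  have hp5 : 8 * M ≤ 8 * M * (B4 * Real.log 36 + 1) := by nlinarith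
  refine ⟨(36 : ℝ) ^ M + 8 * M * (B4 * Real.log 36 + 1) + 4 * B4 + 2 / c + 1, by nlinarith, ?_⟩
  intro B hB δ hδ hδ1 n hn hEM
  have hn0 : (0 : ℝ) < n := by exact_mod_cast hn
  have hB1 : 1 ≤ B := by nlinarith
  have hB0 : 0 < B := by linarith
  have hBc : 2 / c ≤ B := by nlinarith
  have hB36 : (36 : ℝ) ^ M ≤ B := by nlinarith
  have hBB : 4 * B4 ≤ B := by nlinarith
  have hBM : 8 * M * (B4 * Real.log 36 + 1) ≤ B := by nlinarith
  have hg0 : 0 ≤ δ * n / B := by positivity
  have hg1 : δ * n / B ≤ c * n / 2 := by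
    rw [div_le_iff₀ hB0]
    rw [div_le_iff₀ hc] at hBc
    have h1 : δ * n ≤ 1 * n := mul_le_mul_of_nonneg_right hδ1 hn0.le
    nlinarith
  have hlam : 0 ≤ B / (δ * n) := by positivity
  have hEM' : EM X μ L n (δ * n / B) (B / (δ * n)) ≤
      ENNReal.ofReal ((36 : ℝ) ^ (-((2 * (L : ℝ) + 1) ^ 2))) := by
    refine hEM.trans (ENNReal.ofReal_le_ofReal ?_)
    rw [← hM, Real.rpow_neg (by norm_num), one_div]
    exact inv_anti₀ hp4 hB36
  constructor
  · intro m hm
    have hm1 : 1 ≤ m := hn.trans hm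
    have hm0 : (0 : ℝ) < m := by exact_mod_cast hm1
    have hnm : (n : ℝ) ≤ m := by exact_mod_cast hm
    have hr1 : (1 : ℝ) ≤ m / n := by rw [le_div_iff₀ hn0]; linarith
    have hK : 1 + 2 * (C * (L + 1) * m) / (c * n) ≤ B4 * (m / n) := by
      have e : 2 * (C * (L + 1) * m) / (c * n) = 2 * (C * (L + 1)) / c * (m / n) := by
        field_simp
      rw [e, hB4]
      nlinarith
    have h1 := hCG Ω X hX μ c C L hC n hn (δ * n / B) (B / (δ * n)) (δ * m) (C * (L + 1) * m)
      hg0 hg1 hlam (by positivity) (by positivity) (by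
        refine (mul_le_mul_of_nonneg_right hK hg0).trans ?_
        have e : B4 * (m / n) * (δ * n / B) = (B4 / B) * (δ * m) := by
          field_simp
        rw [e]
        have h2 : B4 / B ≤ 1 / 2 := by
          rw [div_le_iff₀ hB0]
          linarith
        have h3 : 0 ≤ δ * m := by positivity
        nlinarith) hEM' (Sts n m)
    have h2 : G X μ L m (δ * m) ≤
        (volume : Measure Ω).real {ω | Low μ n (Sts n m) (C * (L + 1) * m) (δ * m) (env X ω)} := by
      refine measureReal_mono ?_ (measure_ne_top _ _)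
      intro ω hω
      exact low_of_W hC hm1 (by positivity) hω
    refine h2.trans (h1.trans ?_)
    rw [← hM]
    have h3 : ((Sts n m).card : ℝ) ≤ 4 * (m : ℝ) ^ 2 := by
      rw [card_Sts]
      have h4 : m / n + 1 ≤ 2 * m := by
        have := Nat.div_le_self m n
        omega
      have h5 : ((m / n + 1 : ℕ) : ℝ) ≤ 2 * m := by exact_mod_cast h4
      have h6 : (0 : ℝ) ≤ ((m / n + 1 : ℕ) : ℝ) := Nat.cast_nonneg _
      rw [Nat.cast_pow]
      nlinarith
    have h4 : (36 : ℝ) ^ (1 + 2 * (C * (L + 1) * m) / (c * n)) *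
        Real.exp (-(B / (δ * n) * (δ * m) / (4 * M))) ≤ Real.exp (-((m : ℝ) / n)) := by
      refine expo hM1 (by linarith) hBM hK ?_
      have e : B / (δ * n) * (δ * m) / (4 * M) = 2 * (B * (m / n) / (8 * M)) := by
        field_simp
        ring
      rw [e]
      have : 0 ≤ B * (m / n) / (8 * M) := by positivity
      linarith
    calc ((Sts n m).card : ℝ) * M * (36 : ℝ) ^ (1 + 2 * (C * (L + 1) * m) / (c * n)) *
        Real.exp (-(B / (δ * n) * (δ * m) / (4 * M)))
        = ((Sts n m).card : ℝ) * M * ((36 : ℝ) ^ (1 + 2 * (C * (L + 1) * m) / (c * n)) *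
        Real.exp (-(B / (δ * n) * (δ * m) / (4 * M)))) := by ring
      _ ≤ (4 * (m : ℝ) ^ 2) * M * Real.exp (-((m : ℝ) / n)) := by
          refine mul_le_mul (mul_le_mul_of_nonneg_right h3 hM0.le) h4 (by positivity)
            (by positivity)
      _ ≤ B * (m : ℝ) ^ 2 * Real.exp (-((m : ℝ) / n)) := by
          refine mul_le_mul_of_nonneg_right ?_ (Real.exp_pos _).le
          have h5 : 4 * M ≤ B := by linarith
          nlinarith [sq_nonneg (m : ℝ)]
  · intro v hv
    set h : ℝ := μ (em v) with hh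
    have hh0 : 0 < h := lt_of_lt_of_le hn0 hv
    have hr1 : (1 : ℝ) ≤ h / n := by rw [le_div_iff₀ hn0]; linarith
    have hK : 1 + 2 * h / (c * n) ≤ B4 * (h / n) := by
      have e : 2 * h / (c * n) = 2 / c * (h / n) := by
        field_simp
      rw [e, hB4]
      nlinarith
    have h1 := hCG Ω X hX μ c C L hC n hn (δ * n / B) (B / (δ * n)) (δ * h / 2) h
      hg0 hg1 hlam (by positivity) hh0.le (by
        refine (mul_le_mul_of_nonneg_right hK hg0).trans ?_
        have e : B4 * (h / n) * (δ * n / B) = (B4 / B) * (δ * h) := by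
          field_simp
        rw [e]
        have h2 : B4 / B ≤ 1 / 4 := by
          rw [div_le_iff₀ hB0]
          linarith
        have h3 : 0 ≤ δ * h := by positivity
        nlinarith) hEM' {0}
    have h2 : (volume : Measure Ω).real {ω | D (env X ω) 0 v ≤ (1 - δ) * h} ≤
        (volume : Measure Ω).real {ω | Low μ n {0} h (δ * h / 2) (env X ω)} := by
      refine ENNReal.toReal_mono (measure_ne_top _ _) (measure_mono_ae ?_)
      filter_upwards [hAE Ω X hX] with ω hω h3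
      exact low_of_D hGE hω hδ hh0 h3
    refine h2.trans (h1.trans ?_)
    rw [← hM, Finset.card_singleton, Nat.cast_one, one_mul]
    have h4 : (36 : ℝ) ^ (1 + 2 * h / (c * n)) *
        Real.exp (-(B / (δ * n) * (δ * h / 2) / (4 * M))) ≤ Real.exp (-(h / n)) := by
      refine expo hM1 (by linarith) hBM hK ?_
      have e : B / (δ * n) * (δ * h / 2) / (4 * M) = B * (h / n) / (8 * M) := by
        field_simp
        ring
      rw [e]
    calc M * (36 : ℝ) ^ (1 + 2 * h / (c * n)) * Real.exp (-(B / (δ * n) * (δ * h / 2) / (4 * M)))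
        = M * ((36 : ℝ) ^ (1 + 2 * h / (c * n)) *
          Real.exp (-(B / (δ * n) * (δ * h / 2) / (4 * M)))) := by ring
      _ ≤ M * Real.exp (-(h / n)) := mul_le_mul_of_nonneg_left h4 hM0.le
      _ ≤ B * Real.exp (-(h / n)) := by
          refine mul_le_mul_of_nonneg_right ?_ (Real.exp_pos _).le
          linarith

end Run7.h711.OH
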